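import Pool.Agent.H93.SP.Targets

/-!
Module TRSP of the SP project (MP_2059f1_ag): the transfer property of symmetric products of open
subsets of normed spaces.
-/

set_option autoImplicit false

open Topology Set

namespace Pool.Agent.H27.SPB

open Pool.Agent.H59 Pool.Agent.H64.LB Pool.Agent.H93.SPB

noncomputable section

variable (E : Type) [NormedAddCommGroup E] [NormedSpace ℝ E] (N : ℕ)

/-- the action of the symmetric group on the tuples -/
def symA : GA (Fin N → E) (SP N E) where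
  G := Equiv.Perm (Fin N)
  act g := permC g⁻¹ E
  act_one := by
    ext x i
    simp [permC]
  act_mul g h := by
    ext x i
    simp [permC]
  p := proj N E
  p_act g v := proj_perm _ v

lemma symA_lin : (symA E N).Lin where
  add g v w := rfl
  smul g r v := rfl
  norm g v := by
    change ‖v ∘ (g⁻¹ : Equiv.Perm (Fin N))‖ = ‖v‖
    have key : ∀ (s : Equiv.Perm (Fin N)) (w : Fin N → E), ‖w ∘ s‖ ≤ ‖w‖ := fun s w =>
      (pi_norm_le_iff_of_nonneg (norm_nonneg _)).2 fun i => norm_le_pi_norm w (s i)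
    refine le_antisymm (key _ v) ?_
    have key2 : ∀ (s : Equiv.Perm (Fin N)) (w : Fin N → E), ‖w‖ ≤ ‖w ∘ (s⁻¹ :
        Equiv.Perm (Fin N))‖ := by
      intro s w
      have h := key s (w ∘ (s⁻¹ : Equiv.Perm (Fin N)))
      have e : (w ∘ (s⁻¹ : Equiv.Perm (Fin N))) ∘ s = w := by
        funext i
        simp
      rwa [e] at h
    exact key2 g v
  surj := proj_surjective N E
  isOpenMap := proj_isOpenMap N E
  fib v w h := by
    obtain ⟨s, hs⟩ := proj_eq_iff.1 h
    exact ⟨s⁻¹, by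
      rw [hs]
      change v ∘ s = v ∘ (s⁻¹⁻¹ : Equiv.Perm (Fin N))
      rw [inv_inv]⟩

variable {E}

/-- the open set of the symmetric product -/
def OU (U : Set E) : Set (SP N E) := proj N E '' {x | ∀ i, x i ∈ U}

variable {N}

lemma OU_open {U : Set E} (hU : IsOpen U) : IsOpen (OU N U) := by
  refine proj_isOpenMap N E _ ?_
  have : {x : Fin N → E | ∀ i, x i ∈ U} = ⋂ i, (fun x : Fin N → E => x i) ⁻¹' U := by
    ext x
    simp
  rw [this]
  exact isOpen_iInter_of_finite fun i => hU.preimage (continuous_apply i)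

lemma mem_OU {U : Set E} (x : Fin N → E) : (symA E N).p x ∈ OU N U ↔ ∀ i, x i ∈ U := by
  constructor
  · rintro ⟨y, hy, h⟩ i
    obtain ⟨s, hs⟩ := proj_eq_iff.1 h
    rw [hs]
    exact hy (s i)
  · intro h
    exact ⟨x, h, rfl⟩

/-- from tuples in `U` to the preimage -/
def ph (U : Set E) : C(Fin N → U, (symA E N).p ⁻¹' (OU N U)) where
  toFun x := ⟨fun i => (x i : E), (mem_OU _).2 fun i => (x i).2⟩
  continuous_toFun := by
    refine Continuous.subtype_mk ?_ _
    exact continuous_pi fun i => continuous_subtype_val.comp (continuous_apply i)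

/-- from the preimage to tuples in `U` -/
def ph' (U : Set E) : C((symA E N).p ⁻¹' (OU N U), Fin N → U) where
  toFun x i := ⟨x.1 i, (mem_OU x.1).1 x.2 i⟩
  continuous_toFun := by
    refine continuous_pi fun i => Continuous.subtype_mk ?_ _
    exact (continuous_apply i).comp continuous_subtype_val

lemma ph'_ph (U : Set E) : (ph' (N := N) U).comp (ph U) = ContinuousMap.id _ := rfl

lemma ph_ph' (U : Set E) : (ph (N := N) U).comp (ph' U) = ContinuousMap.id _ := rfl

lemma ps_mem (U : Set E) (z : SP N U) :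
    spMap N (⟨Subtype.val, continuous_subtype_val⟩ : C(U, E)) z ∈ OU N U := by
  obtain ⟨x, hx⟩ := proj_surjective N U z
  rw [← hx]
  exact ⟨fun i => (x i : E), fun i => (x i).2, rfl⟩

/-- from the symmetric product of `U` to the open set -/
def ps (U : Set E) : C(SP N U, OU N U) where
  toFun z := ⟨spMap N (⟨Subtype.val, continuous_subtype_val⟩ : C(U, E)) z, ps_mem U z⟩
  continuous_toFun := Continuous.subtype_mk
    (spMap N (⟨Subtype.val, continuous_subtype_val⟩ : C(U, E))).continuous _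

lemma ps_proj (U : Set E) : (ps U).comp (proj N U) = ((symA E N).pr (OU N U)).comp (ph U) := rfl

lemma pr_quot (U : Set E) : IsQuotientMap ((symA E N).pr (OU N U)) := by
  have h1 : IsOpenMap ((symA E N).pr (OU N U)) := by
    have h := (proj_isOpenMap N E).restrictPreimage (OU N U)
    exact h
  refine h1.isQuotientMap ((symA E N).pr (OU N U)).continuous ?_
  rintro ⟨z, x, hx, rfl⟩
  exact ⟨⟨x, (mem_OU x).2 hx⟩, rfl⟩

lemma fact (U : Set E) : Function.FactorsThrough ((proj N U).comp (ph' U))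
    ((symA E N).pr (OU N U)) := by
  rintro ⟨x, hx⟩ ⟨y, hy⟩ h
  have h1 : proj N E x = proj N E y := congrArg Subtype.val h
  obtain ⟨s, hs⟩ := proj_eq_iff.1 h1
  refine proj_eq_iff.2 ⟨s, ?_⟩
  funext i
  exact Subtype.ext (congrFun hs i)

/-- from the open set to the symmetric product of `U` -/
def ps' (U : Set E) : C(OU N U, SP N U) := (pr_quot U).lift _ (fact U)

lemma ps'_ps (U : Set E) : (ps' (N := N) U).comp (ps U) = ContinuousMap.id _ := by
  ext z
  obtain ⟨x, rfl⟩ := proj_surjective N U z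
  have h : ps U (proj N U x) = (symA E N).pr (OU N U) (ph U x) := rfl
  have h2 : (ps' U).comp ((symA E N).pr (OU N U)) = (proj N U).comp (ph' U) :=
    (pr_quot U).lift_comp _ (fact U)
  have h3 := congrArg (fun f => f (ph U x)) h2
  change ps' U (ps U (proj N U x)) = proj N U x
  rw [h]
  exact h3

lemma ph_perm (U : Set E) (g : Equiv.Perm (Fin N)) :
    (ph U).comp (permC g⁻¹ U) = ((symA E N).ac g (OU N U)).comp (ph U) := rfl

theorem trn_of (U : Set E) (h : (symA E N).TR (OU N U)) : TRN U N := by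
  intro q
  obtain ⟨h1, h2⟩ := h q
  have inj : ∀ z : HH ℚ q (SP N U), HH.map ℚ q (ps' U) (HH.map ℚ q (ps U) z) = z := by
    intro z
    rw [← HH.map_comp, ps'_ps, HH.map_id]
  have inj' : ∀ z : HH ℚ q (Fin N → U), HH.map ℚ q (ph' U) (HH.map ℚ q (ph U) z) = z := by
    intro z
    rw [← HH.map_comp, ph'_ph, HH.map_id]
  have inj'' : ∀ z : HH ℚ q ((symA E N).p ⁻¹' (OU N U)),
      HH.map ℚ q (ph U) (HH.map ℚ q (ph' U) z) = z := by
    intro z
    rw [← HH.map_comp, ph_ph', HH.map_id]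
  have sq : ∀ z : HH ℚ q (Fin N → U), HH.map ℚ q (ps U) (HH.map ℚ q (proj N U) z) =
      HH.map ℚ q ((symA E N).pr (OU N U)) (HH.map ℚ q (ph U) z) := by
    intro z
    rw [← HH.map_comp, ← HH.map_comp, ps_proj]
  constructor
  · intro z
    obtain ⟨x, hx⟩ := h1 (HH.map ℚ q (ps U) z)
    refine ⟨HH.map ℚ q (ph' U) x, ?_⟩
    have h3 := sq (HH.map ℚ q (ph' U) x)
    rw [inj'', hx] at h3
    have h4 := congrArg (HH.map ℚ q (ps' U)) h3
    rwa [inj, inj] at h4
  · intro x hx
    have h3 := h2 (HH.map ℚ q (ph U) x) (by rw [← sq, hx, map_zero])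
    have h4 : HH.map ℚ q (ph U) (∑ g : Equiv.Perm (Fin N), HH.map ℚ q (permC g⁻¹ U) x) = 0 := by
      rw [map_sum]
      refine Eq.trans (Finset.sum_congr rfl fun g _ => ?_) h3
      rw [← HH.map_comp, ← HH.map_comp]
      rfl
    have h5 := congrArg (HH.map ℚ q (ph' U)) h4
    rw [inj', map_zero] at h5
    rw [← h5]
    exact (Equiv.sum_comp (Equiv.inv (Equiv.Perm (Fin N)))
      (fun s => HH.map ℚ q (permC s U) x)).symm

theorem trsp (h : T_TRL) : T_TRSP := by
  intro E _ _ U hU N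
  exact trn_of U (h _ _ (symA E N) (symA_lin E N) _ (OU_open hU))

theorem tro (h : T_TRL) : T_TRO := by
  intro n N
  refine trsp h (ℂ × (Fin n → ℝ))
    {p | ¬ (p.2 = 0 ∧ ∃ t : ℝ, t ≤ 0 ∧ p.1 ^ 3 = (t : ℂ))} ?_ N
  have hc : {p : ℂ × (Fin n → ℝ) | ¬ (p.2 = 0 ∧ ∃ t : ℝ, t ≤ 0 ∧ p.1 ^ 3 = (t : ℂ))} =
      ({p : ℂ × (Fin n → ℝ) | p.2 = 0} ∩ ((fun p => (p.1 ^ 3).im) ⁻¹' {0} ∩
        (fun p => (p.1 ^ 3).re) ⁻¹' Iic 0))ᶜ := by
    ext p
    rw [mem_compl_iff]
    refine not_congr (and_congr Iff.rfl ⟨?_, ?_⟩)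
    · rintro ⟨t, ht, h⟩
      constructor
      · change (p.1 ^ 3).im = 0
        rw [h, Complex.ofReal_im]
      · change (p.1 ^ 3).re ≤ 0
        rw [h, Complex.ofReal_re]
        exact ht
    · rintro ⟨h1, h2⟩
      exact ⟨(p.1 ^ 3).re, h2, Complex.ext (by simp) (by
        rw [Complex.ofReal_im]
        exact h1)⟩
  rw [hc]
  refine IsClosed.isOpen_compl (self := ?_)
  exact (isClosed_eq continuous_snd continuous_const).inter
    ((isClosed_singleton.preimage (by fun_prop)).inter (isClosed_Iic.preimage (by fun_prop)))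

end

end Pool.Agent.H27.SPB
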